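import Pool.Agent.H95.FI.Defs

open MvPolynomial

namespace Pool.Agent.H3.FI
open H95.FG H95.FI

theorem cj_cj {n : ℕ} (f : MvPolynomial (Fin n) ℂ) : cj (cj f) = f := by
  unfold cj
  rw [MvPolynomial.map_map]
  have : (starRingEnd ℂ).comp (starRingEnd ℂ) = RingHom.id ℂ := by
    ext x
    simp
  rw [this, MvPolynomial.map_id]

theorem eval_conj {σ : Type*} (f : MvPolynomial σ ℂ) (v : σ → ℂ) :
    eval (fun k => (starRingEnd ℂ) (v k)) (MvPolynomial.map (starRingEnd ℂ) f) =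
      (starRingEnd ℂ) (eval v f) := by
  rw [eval_map]
  show _ = (starRingEnd ℂ) (eval₂ (RingHom.id ℂ) v f)
  rw [eval₂_comp_left]
  rfl

theorem SS_ne_zero {n : ℕ} (hn : 1 ≤ n) : (∑ k : Fin n, X (Sum.inl k) * X (Sum.inr k) :
    MvPolynomial (Fin n ⊕ Fin n) ℂ) ≠ 0 := by
  intro h
  have h1 := congrArg (eval (fun _ : Fin n ⊕ Fin n => (1 : ℂ))) h
  simp at h1
  omega

theorem swap_eq {n m : ℕ} {p : Fin m → MvPolynomial (Fin n) ℂ} {A : MvPolynomial (Fin n ⊕ Fin n) ℂ}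
    (h : Sys n m p A) (hn : 1 ≤ n) :
    MvPolynomial.map (starRingEnd ℂ) (rename (Sum.swap : Fin n ⊕ Fin n → Fin n ⊕ Fin n) A) = A := by
  have h1 := congrArg (fun P => MvPolynomial.map (starRingEnd ℂ)
    (rename (Sum.swap : Fin n ⊕ Fin n → Fin n ⊕ Fin n) P)) h.2
  simp only [map_sum, map_mul, rename_rename, rename_X, Sum.swap_inl, Sum.swap_inr, map_X] at h1
  have e1 : (Sum.swap : Fin n ⊕ Fin n → Fin n ⊕ Fin n) ∘ Sum.inl = Sum.inr := rfl
  have e2 : (Sum.swap : Fin n ⊕ Fin n → Fin n ⊕ Fin n) ∘ Sum.inr = Sum.inl := rfl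
  rw [e1, e2] at h1
  simp only [map_rename] at h1
  have h3 : (∑ k : Fin n, X (Sum.inr k) * X (Sum.inl k) : MvPolynomial (Fin n ⊕ Fin n) ℂ)
      = ∑ k : Fin n, X (Sum.inl k) * X (Sum.inr k) :=
    Finset.sum_congr rfl fun k _ => mul_comm _ _
  rw [h3] at h1
  have h2 : (∑ k : Fin n, X (Sum.inl k) * X (Sum.inr k) : MvPolynomial (Fin n ⊕ Fin n) ℂ) *
      MvPolynomial.map (starRingEnd ℂ) (rename (Sum.swap : Fin n ⊕ Fin n → Fin n ⊕ Fin n) A) =
      (∑ k : Fin n, X (Sum.inl k) * X (Sum.inr k)) * A := by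
    rw [map_rename, ← h1, ← h.2]
    refine Finset.sum_congr rfl fun j _ => ?_
    have e3 : MvPolynomial.map (starRingEnd ℂ) (cj (p j)) = p j := cj_cj (p j)
    rw [e3, mul_comm]
    rfl
  exact mul_left_cancel₀ (SS_ne_zero hn) h2

theorem t_HER : S_HER := by
  intro n m p A h hn z Y
  have h1 := swap_eq h hn
  have h2 : AA A (cv Y) (cv z) = eval (fun k => (starRingEnd ℂ) (Sum.elim Y z k))
      (MvPolynomial.map (starRingEnd ℂ) (rename (Sum.swap : Fin n ⊕ Fin n → Fin n ⊕ Fin n) A)) := by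
    rw [h1]
    unfold AA
    congr 2
    funext x
    rcases x with x | x <;> rfl
  rw [h2, eval_conj, eval_rename]
  unfold AA
  congr 3
  funext x
  rcases x with x | x <;> rfl

end Pool.Agent.H3.FI
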