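import Pool.Agent.H95.FI.Defs

open MvPolynomial

namespace Pool.Agent.H3.FI
open H95.FG H95.FI

/-- the point with coordinates `x` in the family `v` -/
noncomputable def pt {n a : ℕ} (v : Fin a → Fin n → ℂ) (x : Fin a → ℂ) : Fin n → ℂ :=
  fun k => ∑ i, x i * v i k

/-- substitution of `pt v` in a polynomial of `z` -/
noncomputable def sq {n a : ℕ} (v : Fin a → Fin n → ℂ) (P : Pn n) : Pn a :=
  aeval (fun k => ∑ i, X i * C (v i k)) P

/-- substitution in a polynomial of `z, Y` -/
noncomputable def sf {n a : ℕ} (v : Fin a → Fin n → ℂ) (Y : Fin n → ℂ) (A : Qn n) : Pn a :=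
  aeval (Sum.elim (fun k => ∑ i, X i * C (v i k)) (fun k => C (Y k))) A

theorem eval_sq {n a : ℕ} (v : Fin a → Fin n → ℂ) (P : Pn n) (x : Fin a → ℂ) :
    eval x (sq v P) = eval (pt v x) P := by
  unfold sq
  have h := MvPolynomial.comp_aeval_apply (R := ℂ) (fun k => ∑ i, X i * C (v i k) : Fin n → Pn a)
    (MvPolynomial.aeval x : Pn a →ₐ[ℂ] ℂ) P
  have h2 : (MvPolynomial.aeval x : Pn a →ₐ[ℂ] ℂ) (aeval (fun k => ∑ i, X i * C (v i k)) P)
      = eval x (aeval (fun k => ∑ i, X i * C (v i k)) P) := by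
    rw [MvPolynomial.aeval_eq_eval]
  rw [← h2, h, MvPolynomial.aeval_eq_eval]
  congr 2
  funext k
  rw [MvPolynomial.aeval_eq_eval]
  simp [pt, map_sum]

theorem eval_sf {n a : ℕ} (v : Fin a → Fin n → ℂ) (Y : Fin n → ℂ) (A : Qn n) (x : Fin a → ℂ) :
    eval x (sf v Y A) = AA A (pt v x) Y := by
  unfold sf AA
  have h := MvPolynomial.comp_aeval_apply (R := ℂ)
    (Sum.elim (fun k => ∑ i, X i * C (v i k)) (fun k => C (Y k)) : Fin n ⊕ Fin n → Pn a)
    (MvPolynomial.aeval x : Pn a →ₐ[ℂ] ℂ) A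
  have h2 : (MvPolynomial.aeval x : Pn a →ₐ[ℂ] ℂ)
      (aeval (Sum.elim (fun k => ∑ i, X i * C (v i k)) (fun k => C (Y k))) A)
      = eval x (aeval (Sum.elim (fun k => ∑ i, X i * C (v i k)) (fun k => C (Y k))) A) := by
    rw [MvPolynomial.aeval_eq_eval]
  rw [← h2, h, MvPolynomial.aeval_eq_eval]
  congr 2
  funext k
  rw [MvPolynomial.aeval_eq_eval]
  rcases k with k | k
  · simp [pt, map_sum]
  · simp

theorem pt_mem {n a : ℕ} (v : Fin a → Fin n → ℂ) (x : Fin a → ℂ) :
    pt v x ∈ Submodule.span ℂ (Set.range v) := by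
  have : pt v x = ∑ i, x i • v i := by
    funext k
    simp [pt, Finset.sum_apply]
  rw [this]
  exact Submodule.sum_mem _ fun i _ => Submodule.smul_mem _ _ (Submodule.subset_span ⟨i, rfl⟩)

theorem mem_pt {n a : ℕ} (v : Fin a → Fin n → ℂ) (w : Fin n → ℂ)
    (h : w ∈ Submodule.span ℂ (Set.range v)) : ∃ x, pt v x = w := by
  rw [Submodule.mem_span_range_iff_exists_fun] at h
  obtain ⟨c, hc⟩ := h
  refine ⟨c, ?_⟩
  rw [← hc]
  funext k
  simp [pt, Finset.sum_apply]

theorem t_SB (hHALF : S_HALF) (hPTS : S_PTS) (hSUBD : S_SUBD) (hDUA : S_DUA) (hMAC : S_MAC)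
    (hPAIR : H95.FG.S_PAIR) : S_SB := by
  intro n m p A hsys a t hta h2a hat hbig
  obtain ⟨z, Y, horth, hdet⟩ := hbig
  obtain ⟨v, hv, hzv, hvY⟩ := hSUBD n a t z Y hta hat horth
  obtain ⟨U, hU⟩ := hDUA n a v hv
  set f : Fin t → Pn a := fun j => sf v (Y j) A with hf
  set q : Fin m → Pn a := fun l => sq v (p l) with hq
  -- linear independence
  have hfli : LinearIndependent ℂ f := by
    rw [Fintype.linearIndependent_iff]
    intro g hg
    have h1 : (VM A z Y).mulVec g = 0 := by
      funext i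
      obtain ⟨x, hx⟩ := mem_pt v (z i) (hzv i)
      have h2 := congrArg (eval x) hg
      rw [map_sum, map_zero] at h2
      simp only [Matrix.mulVec, dotProduct, VM, Matrix.of_apply, Pi.zero_apply]
      rw [← h2]
      refine Finset.sum_congr rfl fun j _ => ?_
      rw [MvPolynomial.smul_eq_C_mul, map_mul, eval_C, hf]
      simp only
      rw [eval_sf, hx, mul_comm]
    have h3 := Matrix.eq_zero_of_mulVec_eq_zero hdet h1
    intro i
    rw [h3]
    rfl
  -- products
  have hprod : ∀ i j, (X i * f j : Pn a) ∈ Submodule.span ℂ (Set.range q) := by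
    intro i j
    rw [Submodule.mem_span_range_iff_exists_fun]
    refine ⟨fun l => dp (fun j => cj (p j)) (U i) (Y j) l, ?_⟩
    apply MvPolynomial.funext
    intro x
    rw [map_sum, map_mul, eval_X, hf]
    simp only
    rw [eval_sf]
    have hz : ∑ k, pt v x k * Y j k = 0 := by
      have h1 : ∑ k, pt v x k * Y j k = ∑ i, x i * dt (v i) (Y j) := by
        simp only [pt, dt, Finset.sum_mul, Finset.mul_sum]
        rw [Finset.sum_comm]
        refine Finset.sum_congr rfl fun i _ => Finset.sum_congr rfl fun k _ => by ring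
      rw [h1]
      refine Finset.sum_eq_zero fun i _ => ?_
      rw [hvY i j, mul_zero]
    have hzU : ∑ k, pt v x k * U i k = x i := by
      have h1 : ∑ k, pt v x k * U i k = ∑ i', x i' * dt (v i') (U i) := by
        simp only [pt, dt, Finset.sum_mul, Finset.mul_sum]
        rw [Finset.sum_comm]
        refine Finset.sum_congr rfl fun i _ => Finset.sum_congr rfl fun k _ => by ring
      rw [h1]
      simp only [hU]
      simp
    have hp := (hPAIR n m p A hsys (pt v x) (Y j) (U i) 0 hz (by simp)).1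
    rw [hzU] at hp
    rw [← hp]
    refine Finset.sum_congr rfl fun l _ => ?_
    rw [MvPolynomial.smul_eq_C_mul, map_mul, eval_C, hq]
    simp only
    rw [eval_sq, mul_comm]
    rfl
  have hmac := hMAC a t f hfli
  have hle : Module.finrank ℂ (Submodule.span ℂ (Set.range fun x : Fin a × Fin t => X x.1 * f x.2))
      ≤ Module.finrank ℂ (Submodule.span ℂ (Set.range q)) := by
    haveI : FiniteDimensional ℂ (Submodule.span ℂ (Set.range q)) :=
      FiniteDimensional.span_of_finite ℂ (Set.finite_range q)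
    apply Submodule.finrank_mono
    rw [Submodule.span_le]
    rintro _ ⟨x, rfl⟩
    exact hprod x.1 x.2
  obtain ⟨x, hx⟩ := hPTS a m (Module.finrank ℂ (Submodule.span ℂ (Set.range q))) q le_rfl
  have hli : LinearIndependent ℂ (fun i => ev p (pt v (x i))) := by
    have h1 : (fun i => ev p (pt v (x i))) = fun i => ev q (x i) := by
      funext i l
      simp only [ev, hq]
      rw [eval_sq]
    rw [h1]
    exact hx
  have hhalf := hHALF n m p A hsys a _ v (fun i => pt v (x i)) h2a (fun i => pt_mem v (x i)) hli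
  have h5 : 2 * (t * (t - 1) / 2) ≤ t * (t - 1) := Nat.mul_div_le _ _
  omega

end Pool.Agent.H3.FI
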